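import Pool.Agent.helper7.ZE.Spec

set_option autoImplicit false

/-! Row ze:NLR (MP_baa4d7_al) -/

namespace Pool.Agent.NE.NY

open Pool.Agent.helper58.DC Pool.Agent.DI Pool.Agent.GR Pool.Agent.OB Pool.Agent.DR Pool.Agent.FI Pool.Agent.FI3 Pool.Agent.FI4 Pool.Agent.FI4I Pool.Agent.LE Pool.Agent.L5
open Pool.Agent.NAB hiding Ucl BE NUB_stmt NUD_stmt NUH_stmt NUE_stmt NUF_stmt NTK_stmt NXU_stmt NQU_stmt
open Pool.Agent.ND hiding GS ZD XX PP ZGD_stmt ZNU_stmt GBC_stmt GUC_stmt GSP_stmt GIM_stmt GST_stmt GOS_stmt GS4_stmt GFX_stmt GAC_stmt GGR_stmt GOU_stmt GSY_stmt GVF_stmt GNV_stmt GDF_stmt GC1_stmt GEV_stmt GQQ_stmt GKQ_stmt TDC_stmt GKE_stmt GKD_stmt TDI_stmt TDL_stmt TDF_stmt NDQ_stmt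
open Pool.Agent.ND.NY
open Pool.Agent.ZB (Pm Om KZ EQ BQ lQ MZc BDK)

theorem NLR (hCNTL : CNTL_stmt) : NLR_stmt := by
  intro p M hS G _ _ N L Z hZp hZc hZN hNL hLN θ hθ ψ hψ hSB Q y hQ c hc
  have hle : L ⊓ cz Z = N ⊓ cz Z := le_antisymm (inf_le_inf_right _ hLN) (le_inf hNL inf_le_right)
  obtain ⟨l, hl, hlr⟩ := hCNTL p M hS G L Z hZp ((le_inf hZN hZc).trans hNL) θ (by rw [hle]; exact hθ) ψ hSB Q y hQ
  obtain ⟨hcN, hcQ⟩ := Subgroup.mem_inf.1 hc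
  have h0 : l⁻¹ * c * l ∈ N := N.mul_mem (N.mul_mem (N.inv_mem (hLN hl)) hcN) (hLN hl)
  have h1 : l⁻¹ * c * l ∈ cz Z := by
    rw [Subgroup.mem_centralizer_iff]
    intro r hr
    have h2 := (Subgroup.mem_centralizer_iff.1 hcQ) (l * r * l⁻¹) (hlr r hr)
    calc r * (l⁻¹ * c * l) = l⁻¹ * (l * r * l⁻¹ * c) * l := by group
      _ = l⁻¹ * (c * (l * r * l⁻¹)) * l := by rw [h2]
      _ = l⁻¹ * c * l * r := by group
  have h3 := L.mul_mem (L.mul_mem hl (hNL (Subgroup.mem_inf.2 ⟨h0, h1⟩))) (L.inv_mem hl)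
  have h4 : l * (l⁻¹ * c * l) * l⁻¹ = c := by group
  rwa [h4] at h3

end Pool.Agent.NE.NY
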